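import Pool.Agent.W993.MC.Stm

set_option autoImplicit false

/-!
Dirichlet test.
-/

open Filter Topology

namespace Pool.Agent.W804.MC

open Pool.Agent.W993.MC

theorem parts (z : ℂ) (b : ℕ → ℂ) (M : ℕ) :
    (1 - z) * ∑ l ∈ Finset.range M, z ^ (l + 1) * b l =
      z * b 0 - z ^ (M + 1) * b M +
        z * ∑ l ∈ Finset.range M, z ^ (l + 1) * (b (l + 1) - b l) := by
  induction M with
  | zero => simp
  | succ M ih =>
    rw [Finset.sum_range_succ, Finset.sum_range_succ, mul_add, ih]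
    ring

theorem dir : S_DIR := by
  intro z b hz hz1 hb hs
  have hsum : Summable (fun l : ℕ => z ^ (l + 1) * (b (l + 1) - b l)) := by
    refine Summable.of_norm_bounded hs ?_
    intro l
    rw [norm_mul, norm_pow]
    exact mul_le_of_le_one_left (norm_nonneg _) (pow_le_one₀ (norm_nonneg _) hz)
  have hU := hsum.hasSum.tendsto_sum_nat
  have hzb : Tendsto (fun M : ℕ => z ^ (M + 1) * b M) atTop (𝓝 0) := by
    refine squeeze_zero_norm (a := fun M => ‖b M‖) ?_ (by simpa using hb.norm)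
    intro M
    rw [norm_mul, norm_pow]
    exact mul_le_of_le_one_left (norm_nonneg _) (pow_le_one₀ (norm_nonneg _) hz)
  have hne : (1 : ℂ) - z ≠ 0 := sub_ne_zero.2 (Ne.symm hz1)
  refine ⟨(1 - z)⁻¹ * (z * b 0 - 0 + z * ∑' l, z ^ (l + 1) * (b (l + 1) - b l)), ?_⟩
  have h1 : Tendsto (fun M : ℕ => (1 - z)⁻¹ * (z * b 0 - z ^ (M + 1) * b M +
      z * ∑ l ∈ Finset.range M, z ^ (l + 1) * (b (l + 1) - b l))) atTop
      (𝓝 ((1 - z)⁻¹ * (z * b 0 - 0 + z * ∑' l, z ^ (l + 1) * (b (l + 1) - b l)))) :=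
    (((tendsto_const_nhds (x := z * b 0)).sub hzb).add (hU.const_mul z)).const_mul _
  refine h1.congr ?_
  intro M
  rw [← parts, inv_mul_cancel_left₀ hne]

end Pool.Agent.W804.MC
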